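import Mathlib

set_option autoImplicit false

namespace Pool.Agent.Results.MP_4c2ece_co.No

/-- a finite simple graph -/
structure FG where
  V : Type
  fin : Finite V
  G : SimpleGraph V

attribute [instance] FG.fin

/-- `B` is the graph obtained from `A` by identifying each fibre of `p` to a vertex -/
def Quot (A B : FG) (p : A.V → B.V) : Prop :=
  Function.Surjective p ∧ ∀ a b, B.G.Adj a b ↔ a ≠ b ∧ ∃ x y, p x = a ∧ p y = b ∧ A.G.Adj x y

/-- `B` is obtained from `A` by contracting one edge -/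
def Contr (A B : FG) : Prop :=
  ∃ (p : A.V → B.V) (u v : A.V), A.G.Adj u v ∧ Quot A B p ∧
    ∀ x y, p x = p y ↔ x = y ∨ (x = u ∧ y = v) ∨ (x = v ∧ y = u)

/-- `B` is obtained from `A` by identifying the parts of a partition of a set of at most `k` vertices -/
def Ident (k : ℕ) (A B : FG) : Prop :=
  ∃ (p : A.V → B.V) (X : Finset A.V), X.card ≤ k ∧ Quot A B p ∧ ∀ x y, p x = p y → x = y ∨ (x ∈ X ∧ y ∈ X)

/-- `B` is isomorphic to a subgraph of `A` -/
def Sub (B A : FG) : Prop :=
  ∃ f : B.V → A.V, Function.Injective f ∧ ∀ a b, B.G.Adj a b → A.G.Adj (f a) (f b)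

/-- closed under isomorphism, subgraphs and edge contractions -/
def MinorClosed (H : FG → Prop) : Prop := ∀ A B, H A → Sub B A ∨ Contr A B → H B

/-- `k` successive edge contractions -/
inductive Chain : ℕ → FG → FG → Prop
  | refl (A : FG) : Chain 0 A A
  | step {k : ℕ} {A B C : FG} : Contr A B → Chain k B C → Chain (k + 1) A C

noncomputable def deg (A : FG) (v : A.V) : ℕ := (A.G.neighborSet v).ncard

def H (A : FG) : Prop := ∀ v w, 3 ≤ deg A v → 3 ≤ deg A w → v = w

lemma back {A B : FG} {p : A.V → B.V} {u v : A.V} (q : Quot A B p)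
    (h : ∀ x y, p x = p y ↔ x = y ∨ (x = u ∧ y = v) ∨ (x = v ∧ y = u)) (x : A.V) (hu : x ≠ u) (hv : x ≠ v) :
    deg B (p x) ≤ deg A x := by
  refine le_trans (Set.ncard_le_ncard (t := p '' A.G.neighborSet x) ?_) (Set.ncard_image_le)
  intro b hb
  obtain ⟨-, y, z, a1, a2, a3⟩ := (q.2 _ _).1 hb
  have : y = x := by have := (h _ _).1 a1; grind
  exact ⟨z, this ▸ a3, a2⟩

lemma merged {A B : FG} {p : A.V → B.V} {u v : A.V} (e : A.G.Adj u v) (q : Quot A B p)
    (h : ∀ x y, p x = p y ↔ x = y ∨ (x = u ∧ y = v) ∨ (x = v ∧ y = u)) :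
    deg B (p u) + 2 ≤ deg A u + deg A v := by
  have h1 : B.G.neighborSet (p u) ⊆ p '' (A.G.neighborSet u \ {v}) ∪ p '' (A.G.neighborSet v \ {u}) := by
    intro b hb
    obtain ⟨a0, y, z, a1, a2, a3⟩ := (q.2 _ _).1 hb
    have huv : p u = p v := (h _ _).2 (.inr (.inl ⟨rfl, rfl⟩))
    have : y = u ∨ y = v := by have := (h _ _).1 a1; grind
    rcases this with rfl | rfl
    · exact .inl ⟨z, ⟨a3, by rintro rfl; exact a0 (huv.trans a2)⟩, a2⟩
    · exact .inr ⟨z, ⟨a3, by rintro rfl; exact a0 a2⟩, a2⟩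
  have h2 := (Set.ncard_le_ncard h1).trans (Set.ncard_union_le _ _)
  have h3 := Set.ncard_image_le (f := p) (s := A.G.neighborSet u \ {v})
  have h4 := Set.ncard_image_le (f := p) (s := A.G.neighborSet v \ {u})
  have h5 := Set.ncard_sdiff_singleton_add_one (show v ∈ A.G.neighborSet u from e)
  have h6 := Set.ncard_sdiff_singleton_add_one (show u ∈ A.G.neighborSet v from e.symm)
  unfold deg
  omega

lemma closed : MinorClosed H := by
  rintro A B hA (⟨f, hf, h⟩ | ⟨p, u, v, e, q, h⟩)
  · have : ∀ a, deg B a ≤ deg A (f a) := fun a =>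
      Set.ncard_le_ncard_of_injOn f (fun b hb => h a b hb) hf.injOn
    exact fun a b ha hb => hf (hA _ _ (ha.trans (this a)) (hb.trans (this b)))
  · have huv : p u = p v := (h _ _).2 (.inr (.inl ⟨rfl, rfl⟩))
    have key : ∀ a, 3 ≤ deg B a → ∃ x, p x = a ∧ 3 ≤ deg A x := by
      intro a ha
      obtain ⟨x, rfl⟩ := q.1 a
      by_cases c : x = u ∨ x = v
      · have : p x = p u := by rcases c with rfl | rfl <;> simp [huv]
        rw [this] at ha ⊢
        have := merged e q h
        by_cases d : 3 ≤ deg A u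
        · exact ⟨u, rfl, d⟩
        · exact ⟨v, huv.symm, by omega⟩
      · push Not at c
        exact ⟨x, rfl, ha.trans (back q h x c.1 c.2)⟩
    intro a b ha hb
    obtain ⟨x, rfl, hx⟩ := key a ha
    obtain ⟨y, rfl, hy⟩ := key b hb
    rw [hA x y hx hy]

def Inv (A : FG) (m : ℕ) : Prop :=
  ∃ (a b : A.V) (f : A.V → ℤ), (∀ x y, A.G.Adj x y → f x ≤ f y + 1) ∧ f a + m ≤ f b ∧
    m + 2 ≤ deg A a ∧ m + 2 ≤ deg A b

lemma inv_step {A B : FG} {m : ℕ} (h : Inv A (m + 1)) (c : Contr A B) : Inv B m := by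
  classical
  obtain ⟨a, b, f, h1, h2, h3, h4⟩ := h
  obtain ⟨p, u, v, e, q, h⟩ := c
  have dg : ∀ a, deg A a ≤ deg B (p a) + 1 := by
    intro a
    let w := if a = v then u else v
    have h5 : (A.G.neighborSet a \ {w}).ncard ≤ deg B (p a) := by
      refine Set.ncard_le_ncard_of_injOn p (fun x hx => (q.2 _ _).2 ⟨fun c => ?_, a, x, rfl, rfl, hx.1⟩)
        fun x hx y hy c => ?_
      · have := (h _ _).1 c
        have := hx.1.ne
        have : x ≠ w := hx.2
        have := e.ne
        grind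
      · have := (h _ _).1 c
        have : x ≠ w := hx.2
        have : y ≠ w := hy.2
        grind
    have h6 := Set.le_ncard_sdiff {w} (A.G.neighborSet a)
    rw [Set.ncard_singleton] at h6
    unfold deg at *
    omega
  let g : A.V → ℤ := fun x => if min (f u) (f v) < f x then f x - 1 else f x
  have hg : ∀ x y, p x = p y → g x = g y := by
    intro x y c
    have := h1 u v e
    have := h1 v u e.symm
    rcases (h _ _).1 c with rfl | ⟨rfl, rfl⟩ | ⟨rfl, rfl⟩
    · rfl
    · simp only [g]; split_ifs <;> omega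
    · simp only [g]; split_ifs <;> omega
  have hs : ∀ x, g (Function.surjInv q.1 (p x)) = g x := fun x => hg _ _ (Function.surjInv_eq q.1 _)
  refine ⟨p a, p b, fun z => g (Function.surjInv q.1 z), fun z w c => ?_, ?_, by linarith [dg a], by linarith [dg b]⟩
  · obtain ⟨-, x, y, rfl, rfl, c'⟩ := (q.2 _ _).1 c
    have := h1 x y c'
    simp only [hs, g]
    split_ifs <;> omega
  · simp only [hs, g]
    push_cast at h2
    split_ifs <;> omega

lemma inv_chain {k : ℕ} {A C : FG} (c : Chain k A C) (hC : H C) : ∀ m, Inv A m → m ≤ k := by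
  induction c with
  | refl A =>
    rintro m ⟨a, b, f, -, h2, h3, h4⟩
    by_contra c
    rw [hC a b (by omega) (by omega)] at h2
    omega
  | step s _ ih =>
    rintro (_ | m) h
    · omega
    · have := ih hC m (inv_step h s)
      omega

open Classical in
noncomputable def mp (A : FG) {u v : A.V} (h : u ≠ v) (x : A.V) : {x // x ≠ v} :=
  if c : x = v then ⟨u, h⟩ else ⟨x, c⟩

def mg (A : FG) {u v : A.V} (h : u ≠ v) : FG where
  V := {x // x ≠ v}
  fin := inferInstance
  G := { Adj := fun a b => a ≠ b ∧ ∃ x y, mp A h x = a ∧ mp A h y = b ∧ A.G.Adj x y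
         symm := ⟨fun _ _ ⟨c, x, y, d, e, f⟩ => ⟨c.symm, y, x, e, d, f.symm⟩⟩
         loopless := ⟨fun _ c => c.1 rfl⟩ }

lemma mg_quot (A : FG) {u v : A.V} (h : u ≠ v) : Quot A (mg A h) (mp A h) :=
  ⟨fun a => ⟨a.1, by simp [mp, a.2]⟩, fun _ _ => Iff.rfl⟩

lemma mg_fib (A : FG) {u v : A.V} (h : u ≠ v) (x y : A.V) :
    mp A h x = mp A h y ↔ x = y ∨ (x = u ∧ y = v) ∨ (x = v ∧ y = u) := by
  unfold mp
  split_ifs <;> simp only [Subtype.mk.injEq] <;> grind

lemma mg_id (A : FG) {u v : A.V} (h : u ≠ v) : Ident 2 A (mg A h) := by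
  classical
  refine ⟨mp _ h, {u, v}, Finset.card_le_two, mg_quot _ h, fun x y c => ?_⟩
  have := (mg_fib _ h x y).1 c
  grind

lemma reach : ∀ (n : ℕ) (A : FG), Nat.card A.V = n → ∃ k C, Chain k A C ∧ H C := by
  intro n
  induction n using Nat.strong_induction_on with
  | _ n ih =>
  intro A hn
  by_cases c : ∃ u v, A.G.Adj u v
  · obtain ⟨u, v, e⟩ := c
    obtain ⟨k, C, a, b⟩ := ih _ (hn ▸ Finite.card_subtype_lt (p := fun x => x ≠ v) (x := v) (by simp))
      (mg A e.ne) rfl
    exact ⟨k + 1, C, .step ⟨_, u, v, e, mg_quot A e.ne, mg_fib A e.ne⟩ a, b⟩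
  · refine ⟨0, A, .refl A, fun v w hv _ => ?_⟩
    have : A.G.neighborSet v = ∅ := by
      ext x
      simpa using fun h => c ⟨v, x, h⟩
    simp [deg, this] at hv

def ex (m : ℕ) : FG where
  V := Fin (m + 2) ⊕ Bool × Fin (m + 2)
  fin := inferInstance
  G := { Adj := fun a b => match a, b with
          | .inl i, .inl j => (i : ℕ) + 1 = j ∨ (j : ℕ) + 1 = i
          | .inl i, .inr x => (i : ℕ) = if x.1 then m + 1 else 0
          | .inr x, .inl i => (i : ℕ) = if x.1 then m + 1 else 0
          | .inr _, .inr _ => False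
         symm := ⟨by rintro (i | x) (j | y) h; exacts [h.symm, h, h, h]⟩
         loopless := ⟨by rintro (i | x) h; exacts [by simp at h, h]⟩ }

theorem result : ∃ H : FG → Prop, MinorClosed H ∧ ∀ m : ℕ, ∃ A : FG, (∃ B, Ident 2 A B ∧ H B) ∧
    (∃ k C, Chain k A C ∧ H C) ∧ ∀ k C, Chain k A C → H C → m ≤ k := by
  classical
  refine ⟨H, closed, fun m => ⟨ex m, ?_, reach _ _ rfl, fun k C a b => inv_chain a b m ?_⟩⟩
  · have h : (Sum.inl 0 : (ex m).V) ≠ Sum.inl (Fin.last _) := fun c => by
      simpa using Sum.inl_injective c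
    refine ⟨mg _ h, mg_id _ h, ?_⟩
    · have key : ∀ a, 3 ≤ deg (mg (ex m) h) a → a = mp (ex m) h (Sum.inl 0) := by
        intro a ha
        obtain ⟨x, rfl⟩ := (mg_quot _ h).1 a
        by_contra c
        have h1 : x ≠ Sum.inl 0 := fun q => c ((mg_fib _ h _ _).2 (.inl q))
        have h2 : x ≠ Sum.inl (Fin.last _) := fun q => c ((mg_fib _ h _ _).2 (.inr (.inr ⟨q, rfl⟩)))
        have h3 := ha.trans (back (mg_quot _ h) (mg_fib _ h) x h1 h2)
        have : ∃ y z, (ex m).G.neighborSet x ⊆ {y, z} := by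
          rcases x with i | x
          · have a1 : (i : ℕ) ≠ 0 := fun q => h1 (congrArg Sum.inl (Fin.ext q))
            have a2 : (i : ℕ) ≠ m + 1 := fun q => h2 (congrArg Sum.inl (Fin.ext q))
            refine ⟨.inl ⟨i - 1, by omega⟩, .inl ⟨i + 1, by omega⟩, ?_⟩
            rintro (j | y) e
            · rcases e with e | e
              · exact .inr (congrArg Sum.inl (Fin.ext e.symm))
              · exact .inl (congrArg Sum.inl (Fin.ext (by simp only; omega)))
            · have e' : (i : ℕ) = if y.1 then m + 1 else 0 := e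
              split_ifs at e' <;> omega
          · refine ⟨.inl 0, .inl (Fin.last _), ?_⟩
            rintro (j | y) e
            · have e' : (j : ℕ) = if x.1 then m + 1 else 0 := e
              split_ifs at e'
              · exact .inr (congrArg Sum.inl (Fin.ext e'))
              · exact .inl (congrArg Sum.inl (Fin.ext e'))
            · exact e.elim
        obtain ⟨y, z, s⟩ := this
        have h4 := (Set.ncard_le_ncard s).trans (Set.ncard_insert_le _ _)
        rw [Set.ncard_singleton] at h4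
        unfold deg at h3
        omega
      exact fun a b ha hb => (key a ha).trans (key b hb).symm
  · have dg : ∀ (t : Bool) (i : Fin (m + 2)), (i : ℕ) = (if t then m + 1 else 0) → m + 2 ≤ deg (ex m) (.inl i) := by
      intro t i hi
      have := Set.ncard_le_ncard_of_injOn (s := (Set.univ : Set (Fin (m + 2))))
        (t := (ex m).G.neighborSet (.inl i)) (fun j => Sum.inr (t, j)) (fun j _ => hi)
        (fun a _ b _ c => by simpa using Sum.inr_injective c)
      simpa [Set.ncard_univ, deg] using this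
    refine ⟨.inl 0, .inl (Fin.last _), Sum.elim (fun i => (i : ℕ)) fun x => if x.1 then m + 1 else 0, ?_,
      by simp, dg false _ rfl, dg true _ rfl⟩
    rintro (i | x) (j | y) e
    · have e' : (i : ℕ) + 1 = j ∨ (j : ℕ) + 1 = i := e
      simp only [Sum.elim_inl]; omega
    · have e' : (i : ℕ) = if y.1 then m + 1 else 0 := e
      simp only [Sum.elim_inl, Sum.elim_inr]; split_ifs at * <;> omega
    · have e' : (j : ℕ) = if x.1 then m + 1 else 0 := e
      simp only [Sum.elim_inl, Sum.elim_inr]; split_ifs at * <;> omega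
    · exact e.elim

end Pool.Agent.Results.MP_4c2ece_co.No
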